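import Pool.Agent.Lib.MP_688fd0_co.SQ5.NA.Iface
import Pool.Agent.Lib.MP_688fd0_co.SQ5.H30.ExaW

/-!
Row NBL of the board `na_modules` (helper26; after `HypN.g_st`, `HypN.g_y` of `SQ5/H98/Heart.lean`): proof of `NblS`.
-/

set_option autoImplicit false

namespace Pool.Agent.Lib.MP_688fd0_co.SQ5.H26

open Pool.Agent.Lib.MP_688fd0_co.OSF Pool.Agent.Lib.MP_688fd0_co.SQ2 Pool.Agent.Lib.MP_688fd0_co.SQ3
open Pool.Agent.Lib.MP_688fd0_co.SQ4 Pool.Agent.Lib.MP_688fd0_co.SQ5.N Pool.Agent.Lib.MP_688fd0_co.SQ5.NA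
open Pool.Agent.Lib.MP_688fd0_co.SQ5

section core

variable {Q : Type} [Group Q] {D : Subgroup Q} {u W : Q} {wD : D} {e : ℕ} [NeZero e]
  (hu : ∀ d : D, Commute u (d : Q)) (hW : W = u ^ e * (wD : Q))
include hu hW

theorem W_zpow (l : ℤ) : W ^ l = u ^ ((e : ℤ) * l) * ((wD ^ l : D) : Q) := by
  rw [hW, ((hu wD).pow_left e).mul_zpow, zpow_mul, zpow_natCast, Subgroup.coe_zpow]

/-- The vertex of a strand. -/
theorem g_st (n : ℤ) (d : D) : gN D u e (stN e wD n d) * W ^ (n / (e : ℤ)) = u ^ n * d := by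
  have he : (0 : ℤ) < (e : ℤ) := by exact_mod_cast NeZero.pos e
  rw [W_zpow hu hW]
  set l : ℤ := n / (e : ℤ) with hl
  have h0 : gN D u e (stN e wD n d) = u ^ (n % (e : ℤ)) * ((d * wD ^ (-l) : D) : Q) := by
    show u ^ ((n % (e : ℤ)).toNat) * ((d * wD ^ (-l) : D) : Q) = _
    have h1 : ((n % (e : ℤ)).toNat : ℤ) = n % (e : ℤ) := Int.toNat_of_nonneg (Int.emod_nonneg n he.ne')
    conv_rhs => rw [← h1, zpow_natCast]
  rw [h0]
  have h2 : ((d * wD ^ (-l) : D) : Q) * u ^ ((e : ℤ) * l) = u ^ ((e : ℤ) * l) * ((d * wD ^ (-l) : D) : Q) :=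
    ((hu _).zpow_left _).eq.symm
  calc u ^ (n % (e : ℤ)) * ((d * wD ^ (-l) : D) : Q) * (u ^ ((e : ℤ) * l) * ((wD ^ l : D) : Q))
      = u ^ (n % (e : ℤ)) * (((d * wD ^ (-l) : D) : Q) * u ^ ((e : ℤ) * l)) * ((wD ^ l : D) : Q) := by group
    _ = u ^ (n % (e : ℤ)) * u ^ ((e : ℤ) * l) * (((d * wD ^ (-l) : D) : Q) * ((wD ^ l : D) : Q)) := by rw [h2]; group
    _ = u ^ n * d := by
      rw [← zpow_add, Int.emod_add_mul_ediv, ← Subgroup.coe_mul, zpow_neg, inv_mul_cancel_right]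

/-- The two strands which are joined to the strand of `x ∈ D` by the rungs at its `l`-th level. -/
theorem nb_core {i k : ℕ} (hi : 0 < i) (hie : i < e) {p : D} {P : Q} (hP : P = u ^ i * (p : Q)) (x : D) (l : ℕ)
    (hl : l < k) (y : Q)
    (hy : y = x * W ^ l * P⁻¹ * W ^ (1 - (l : ℤ)) ∨ y = x * W ^ l * P * W ^ (-(l : ℤ))) :
    ∃ v : Fin e × D, gN D u e v = y ∧ JnN e wD p i k (0, x) v := by
  have he : (0 : ℤ) < (e : ℤ) := by exact_mod_cast NeZero.pos e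
  have hWl : W ^ l = u ^ ((e : ℤ) * l) * ((wD ^ (l : ℤ) : D) : Q) := by
    rw [← zpow_natCast W l, W_zpow hu hW]
  have hxu : ∀ (z : D) (m : ℤ), (z : Q) * u ^ m = u ^ m * (z : Q) := fun z m => ((hu z).zpow_left m).eq.symm
  have hzero : (((0 : Fin e) : ℕ) : ℤ) = 0 := by simp
  rcases hy with hy | hy
  · -- the rung of the strand of `x`
    refine ⟨yN e wD p i k ((0, x), ⟨l, hl⟩), ?_, ((0, x), ⟨l, hl⟩), Or.inl ⟨rfl, rfl⟩⟩
    have h1 : yN e wD p i k ((0, x), ⟨l, hl⟩) = stN e wD ((e : ℤ) * l - i) (x * wD ^ l * p⁻¹) := by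
      show stN e wD ((((0 : Fin e) : ℕ) : ℤ) + e * (l : ℤ) - i) (x * wD ^ l * p⁻¹) = _
      rw [hzero, zero_add]
    have h2 := g_st hu hW ((e : ℤ) * l - i) (x * wD ^ l * p⁻¹)
    have h3 : ((e : ℤ) * l - i) / (e : ℤ) = l - 1 := by
      have h4 : (e : ℤ) * l - i = (e - i : ℤ) + e * ((l : ℤ) - 1) := by ring
      rw [h4, Int.add_mul_ediv_left _ _ he.ne', Int.ediv_eq_zero_of_lt, zero_add]
      · have : (i : ℤ) < e := by exact_mod_cast hie
        linarith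
      · have : (0 : ℤ) < i := by exact_mod_cast hi
        linarith
    rw [h3, ← h1] at h2
    rw [hy, ← mul_inv_eq_iff_eq_mul, ← zpow_neg, neg_sub, h2, hWl, hP]
    have h5 : (u ^ i * (p : Q))⁻¹ = u ^ (-(i : ℤ)) * ((p⁻¹ : D) : Q) := by
      rw [mul_inv_rev, zpow_neg, zpow_natCast, Subgroup.coe_inv]
      exact (((hu p).pow_left i).inv_inv).eq.symm
    rw [h5]
    calc u ^ ((e : ℤ) * l - i) * ((x * wD ^ l * p⁻¹ : D) : Q)
        = u ^ ((e : ℤ) * l) * (u ^ (-(i : ℤ)) * ((x * wD ^ (l : ℤ) : D) : Q)) * ((p⁻¹ : D) : Q) := by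
          rw [sub_eq_add_neg, zpow_add, zpow_natCast wD l, Subgroup.coe_mul D (x * wD ^ l)]
          group
      _ = u ^ ((e : ℤ) * l) * (((x * wD ^ (l : ℤ) : D) : Q) * u ^ (-(i : ℤ))) * ((p⁻¹ : D) : Q) := by rw [hxu]
      _ = (u ^ ((e : ℤ) * l) * (x : Q)) * ((wD ^ (l : ℤ) : D) : Q) * (u ^ (-(i : ℤ)) * ((p⁻¹ : D) : Q)) := by
          rw [Subgroup.coe_mul]
          group
      _ = _ := by
          rw [← hxu x]
          group
  · -- the rung ends on the strand of `x`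
    refine ⟨(⟨i, hie⟩, x * wD ^ (l : ℤ) * p * wD ^ (-(l : ℤ))), ?_,
      ((⟨i, hie⟩, x * wD ^ (l : ℤ) * p * wD ^ (-(l : ℤ))), ⟨l, hl⟩), Or.inr ⟨rfl, ?_⟩⟩
    · have h2 := g_st hu hW ((e : ℤ) * l + i) (x * wD ^ (l : ℤ) * p)
      have h3 : ((e : ℤ) * l + i) / (e : ℤ) = l := by
        have h4 : (e : ℤ) * l + i = (i : ℤ) + e * (l : ℤ) := by ring
        rw [h4, Int.add_mul_ediv_left _ _ he.ne', Int.ediv_eq_zero_of_lt, zero_add]
        · positivity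
        · exact_mod_cast hie
      have h4 : stN e wD ((e : ℤ) * l + i) (x * wD ^ (l : ℤ) * p) =
          (⟨i, hie⟩, x * wD ^ (l : ℤ) * p * wD ^ (-(l : ℤ))) := by
        refine Prod.ext (Fin.ext ?_) ?_
        · show (((e : ℤ) * l + i) % (e : ℤ)).toNat = i
          rw [add_comm, Int.add_mul_emod_self_left, Int.emod_eq_of_lt (by positivity) (by exact_mod_cast hie)]
          exact Int.toNat_natCast i
        · show x * wD ^ (l : ℤ) * p * wD ^ (-(((e : ℤ) * l + i) / (e : ℤ))) = _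
          rw [h3]
      rw [h3, h4] at h2
      rw [hy, ← mul_inv_eq_iff_eq_mul, ← zpow_neg, neg_neg, h2, hWl, hP]
      calc u ^ ((e : ℤ) * l + i) * ((x * wD ^ (l : ℤ) * p : D) : Q)
          = u ^ ((e : ℤ) * l) * (u ^ (i : ℤ) * ((x * wD ^ (l : ℤ) : D) : Q)) * (p : Q) := by
            rw [zpow_add, Subgroup.coe_mul D (x * wD ^ (l : ℤ))]
            group
        _ = u ^ ((e : ℤ) * l) * (((x * wD ^ (l : ℤ) : D) : Q) * u ^ (i : ℤ)) * (p : Q) := by rw [hxu]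
        _ = (u ^ ((e : ℤ) * l) * (x : Q)) * ((wD ^ (l : ℤ) : D) : Q) * (u ^ (i : ℤ) * (p : Q)) := by
            rw [Subgroup.coe_mul]
            group
        _ = _ := by
            rw [← hxu x, zpow_natCast u i]
            group
    · show stN e wD (((i : ℕ) : ℤ) + e * (l : ℤ) - i) (x * wD ^ (l : ℤ) * p * wD ^ (-(l : ℤ)) * wD ^ l * p⁻¹) = (0, x)
      have h1 : x * wD ^ (l : ℤ) * p * wD ^ (-(l : ℤ)) * wD ^ l * p⁻¹ = x * wD ^ (l : ℤ) := by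
        rw [zpow_neg, zpow_natCast, inv_mul_cancel_right, mul_inv_cancel_right]
      have h2 : ((i : ℕ) : ℤ) + e * (l : ℤ) - i = (((0 : Fin e) : ℕ) : ℤ) + e * (l : ℤ) := by rw [hzero]; ring
      rw [h1, h2, H30.st_add]
      exact H30.st_self e wD (0, x)

end core

/-- NBL. -/
theorem nbl : NblS := by
  intro Q _ B a b σ t eps D u i e k H _ x s y hy
  obtain ⟨l, hl, hy⟩ := hy
  have hu : ∀ d : D, Commute u (d : Q) := fun d => (H.cen _ (H.leD d.2)).symm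
  have hW : B.q a * (B.q b)⁻¹ = u ^ e * (H.wD : Q) := by
    show _ = u ^ e * ((u ^ e)⁻¹ * (B.q a * (B.q b)⁻¹))
    rw [mul_inv_cancel_left]
  have hP : B.q a * (B.q (t s))⁻¹ = u ^ i s * (H.pD s : Q) := by
    show _ = u ^ i s * ((u ^ i s)⁻¹ * (B.q a * (B.q (t s))⁻¹))
    rw [mul_inv_cancel_left]
  obtain ⟨v, h1, h2⟩ := nb_core hu hW (H.ipos s) (H.ilt s) hP x l hl y hy
  exact ⟨v, h1, s, h2⟩

end Pool.Agent.Lib.MP_688fd0_co.SQ5.H26
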